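import Pool.Agent.V8H27.GC.Defs

/-!
# Simplicial complexes given by lists of bit masks of facets

`fs N a` : the set of the `i < N` with `a.testBit i`. `KL N L` : the complex with the facets `fs N f`, `f ∈ L`.
-/

set_option autoImplicit false

namespace Pool.Agent.V8H11.GC

open Pool.Agent.V8H27.GC

/-- the set with the bit mask `a` -/
def fs (N a : ℕ) : Finset (Fin N) := Finset.univ.filter fun i => a.testBit i = true

theorem mem_fs {N a : ℕ} {i : Fin N} : i ∈ fs N a ↔ a.testBit i = true := by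
  simp [fs]

/-- the complex with the list of facets `L` -/
def KL (N : ℕ) (L : List ℕ) : Set (Finset (Fin N)) := {T | ∃ f ∈ L, T ⊆ fs N f}

theorem mem_KL {N : ℕ} {L : List ℕ} {T : Finset (Fin N)} : T ∈ KL N L ↔ ∃ f ∈ L, T ⊆ fs N f := Iff.rfl

theorem KL_dn {N : ℕ} {L : List ℕ} : ∀ T ∈ KL N L, ∀ S, S ⊆ T → S ∈ KL N L := by
  rintro T ⟨f, hf, hT⟩ S hS
  exact ⟨f, hf, hS.trans hT⟩

theorem fs_sub {N a b : ℕ} (ha : a < 2 ^ N) : fs N a ⊆ fs N b ↔ b &&& a = a := by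
  constructor
  · intro h
    apply Nat.eq_of_testBit_eq
    intro i
    rw [Nat.testBit_and]
    by_cases hi : i < N
    · by_cases h1 : a.testBit i = true
      · have := mem_fs.1 (h (mem_fs.2 (show a.testBit (⟨i, hi⟩ : Fin N) = true from h1)))
        rw [h1, this]; rfl
      · rw [Bool.not_eq_true] at h1
        rw [h1, Bool.and_false]
    · have : a.testBit i = false := Nat.testBit_lt_two_pow (lt_of_lt_of_le ha (Nat.pow_le_pow_right (by norm_num) (by omega)))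
      rw [this, Bool.and_false]
  · intro h i hi
    rw [mem_fs] at hi ⊢
    have h1 := congrArg (fun x => x.testBit i) h
    simp only [Nat.testBit_and, hi, Bool.and_true] at h1
    exact h1

theorem fs_or {N a b : ℕ} : fs N (a ||| b) = fs N a ∪ fs N b := by
  ext i
  simp [mem_fs, Nat.testBit_or]

theorem fs_disj {N a b : ℕ} (h : a &&& b = 0) : Disjoint (fs N a) (fs N b) := by
  rw [Finset.disjoint_left]
  intro i h1 h2
  rw [mem_fs] at h1 h2
  have h3 := congrArg (fun x => x.testBit i) h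
  simp [Nat.testBit_and, h1, h2] at h3

theorem fs_xor {N c : ℕ} (i : Fin N) (h : c.testBit i = true) : fs N (c ^^^ 2 ^ (i : ℕ)) = (fs N c).erase i := by
  ext j
  rw [Finset.mem_erase, mem_fs, mem_fs, Nat.testBit_xor, Nat.testBit_two_pow]
  by_cases hj : (i : ℕ) = j
  · have : j = i := Fin.ext hj.symm
    subst this
    simp [h]
  · have : j ≠ i := fun e => hj (by rw [e])
    simp [hj, this]

theorem fs_ne {N a : ℕ} (ha : a < 2 ^ N) (h : a ≠ 0) : (fs N a).Nonempty := by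
  rw [Finset.nonempty_iff_ne_empty]
  intro he
  apply h
  have h1 : fs N a ⊆ fs N 0 := by rw [he]; exact Finset.empty_subset _
  rw [fs_sub ha, Nat.zero_and] at h1
  exact h1.symm

theorem last_not {N a : ℕ} (ha : a < 2 ^ N) : Fin.last N ∉ fs (N + 1) a := by
  rw [mem_fs]
  have : a.testBit (Fin.last N : ℕ) = false := by
    rw [Fin.val_last]
    exact Nat.testBit_lt_two_pow ha
  rw [this]
  simp

/-- the new complex of the flip of `A` and `B` -/
def fl {V : Type} [DecidableEq V] (A B : Finset V) (K : Set (Finset V)) : Set (Finset V) :=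
  {T | (T ∈ K ∧ ¬ A ⊆ T) ∨ (B ⊆ T ∧ T ⊆ A ∪ B ∧ ¬ A ⊆ T)}

/-- the conditions for a bistellar flip, in terms of bit masks -/
structure FlipOK (N : ℕ) (L L' : List ℕ) (a b : ℕ) : Prop where
  bd : ∀ f ∈ L, f < 2 ^ N
  a0 : a ≠ 0
  b0 : b ≠ 0
  al : a < 2 ^ N
  bl : b < 2 ^ N
  dj : a &&& b = 0
  h1 : ∀ f ∈ L, f &&& a = a → ∃ i < N, b.testBit i = true ∧ f = (a ||| b) ^^^ 2 ^ i
  h2 : ∀ i < N, b.testBit i = true → (a ||| b) ^^^ 2 ^ i ∈ L
  h3 : ∀ f ∈ L, f &&& b ≠ b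
  h4 : ∀ f, f ∈ L' ↔ (f ∈ L ∧ f &&& a ≠ a) ∨ ∃ i < N, a.testBit i = true ∧ f = (a ||| b) ^^^ 2 ^ i

variable {N : ℕ} {L L' : List ℕ} {a b : ℕ}

theorem lt_succ_pow {x N : ℕ} (h : x < 2 ^ N) : x < 2 ^ (N + 1) := lt_of_lt_of_le h (Nat.pow_le_pow_right (by norm_num) (by omega))

theorem bit_lt {x i : ℕ} (h : x < 2 ^ N) (hi : x.testBit i = true) : i < N := by
  by_contra h1
  rw [Nat.testBit_lt_two_pow (lt_of_lt_of_le h (Nat.pow_le_pow_right (by norm_num) (by omega)))] at hi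
  exact absurd hi (by simp)

theorem fs_erase {M a b i : ℕ} (hi : i < M) (h : a.testBit i = true ∨ b.testBit i = true) :
    fs M ((a ||| b) ^^^ 2 ^ i) = (fs M a ∪ fs M b).erase ⟨i, hi⟩ := by
  rw [← fs_or]
  refine fs_xor (⟨i, hi⟩ : Fin M) ?_
  rw [Nat.testBit_or]
  simpa using h

theorem FlipOK.KL_eq (h : FlipOK N L L' a b) :
    KL (N + 1) L' = fl (fs (N + 1) a) (fs (N + 1) b) (KL (N + 1) L) := by
  have hal := lt_succ_pow h.al
  have hbl := lt_succ_pow h.bl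
  ext T
  constructor
  · rintro ⟨f, hf, hT⟩
    rw [h.h4] at hf
    rcases hf with ⟨hf, hfa⟩ | ⟨i, hi, hia, rfl⟩
    · exact Or.inl ⟨⟨f, hf, hT⟩, fun hA => hfa ((fs_sub hal).1 (hA.trans hT))⟩
    · have hi' : i < N + 1 := by omega
      rw [fs_erase hi' (Or.inl hia)] at hT
      have hnA : ¬ fs (N + 1) a ⊆ T := by
        intro hA
        have := hT (hA (mem_fs.2 (show a.testBit ((⟨i, hi'⟩ : Fin (N + 1)) : ℕ) = true from hia)))
        simp at this
      have hTC : T ⊆ fs (N + 1) a ∪ fs (N + 1) b := hT.trans (Finset.erase_subset _ _)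
      by_cases hB : fs (N + 1) b ⊆ T
      · exact Or.inr ⟨hB, hTC, hnA⟩
      · rw [Finset.not_subset] at hB
        obtain ⟨j, hj, hjT⟩ := hB
        rw [mem_fs] at hj
        refine Or.inl ⟨⟨(a ||| b) ^^^ 2 ^ (j : ℕ), h.h2 j (bit_lt h.bl hj) hj, ?_⟩, hnA⟩
        rw [fs_erase j.2 (Or.inr hj)]
        intro x hx
        rw [Finset.mem_erase]
        exact ⟨fun e => hjT (by rw [← show x = j from e]; exact hx), hTC hx⟩
  · rintro (⟨⟨f, hf, hT⟩, hA⟩ | ⟨hB, hC, hA⟩)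
    · by_cases hfa : f &&& a = a
      · obtain ⟨i, hi, hib, rfl⟩ := h.h1 f hf hfa
        rw [fs_erase (by omega : i < N + 1) (Or.inr hib)] at hT
        have hTC : T ⊆ fs (N + 1) a ∪ fs (N + 1) b := hT.trans (Finset.erase_subset _ _)
        rw [Finset.not_subset] at hA
        obtain ⟨j, hj, hjT⟩ := hA
        rw [mem_fs] at hj
        refine ⟨(a ||| b) ^^^ 2 ^ (j : ℕ), (h.h4 _).2 (Or.inr ⟨j, bit_lt h.al hj, hj, rfl⟩), ?_⟩
        rw [fs_erase j.2 (Or.inl hj)]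
        intro x hx
        rw [Finset.mem_erase]
        exact ⟨fun e => hjT (by rw [← show x = j from e]; exact hx), hTC hx⟩
      · exact ⟨f, (h.h4 f).2 (Or.inl ⟨hf, hfa⟩), hT⟩
    · rw [Finset.not_subset] at hA
      obtain ⟨j, hj, hjT⟩ := hA
      rw [mem_fs] at hj
      refine ⟨(a ||| b) ^^^ 2 ^ (j : ℕ), (h.h4 _).2 (Or.inr ⟨j, bit_lt h.al hj, hj, rfl⟩), ?_⟩
      rw [fs_erase j.2 (Or.inl hj)]
      intro x hx
      rw [Finset.mem_erase]
      exact ⟨fun e => hjT (by rw [← show x = j from e]; exact hx), hC hx⟩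

/-- the hypotheses of `flip_star` -/
theorem FlipOK.hyp (h : FlipOK N L L' a b) :
    Disjoint (fs (N + 1) a) (fs (N + 1) b) ∧ (fs (N + 1) a).Nonempty ∧ (fs (N + 1) b).Nonempty ∧
    fs (N + 1) a ∈ KL (N + 1) L ∧ (∀ T ∈ KL (N + 1) L, Fin.last N ∉ T) ∧ Fin.last N ∉ fs (N + 1) b ∧
    (∀ T ∈ KL (N + 1) L, fs (N + 1) a ⊆ T → T ⊆ fs (N + 1) a ∪ fs (N + 1) b) ∧
    (∀ x ∈ fs (N + 1) b, (fs (N + 1) a ∪ fs (N + 1) b).erase x ∈ KL (N + 1) L) ∧ fs (N + 1) b ∉ KL (N + 1) L := by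
  have hal := lt_succ_pow h.al
  have hbl := lt_succ_pow h.bl
  have h2 : ∀ x ∈ fs (N + 1) b, (fs (N + 1) a ∪ fs (N + 1) b).erase x ∈ KL (N + 1) L := by
    intro x hx
    rw [mem_fs] at hx
    refine ⟨(a ||| b) ^^^ 2 ^ (x : ℕ), h.h2 x (bit_lt h.bl hx) hx, ?_⟩
    rw [fs_erase x.2 (Or.inr hx)]
  have hd := fs_disj (N := N + 1) h.dj
  refine ⟨hd, fs_ne hal h.a0, fs_ne hbl h.b0, ?_, ?_, last_not h.bl, ?_, h2, ?_⟩
  · obtain ⟨x, hx⟩ := fs_ne hbl h.b0
    refine KL_dn _ (h2 x hx) _ ?_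
    intro y hy
    rw [Finset.mem_erase]
    exact ⟨fun e => Finset.disjoint_left.1 hd hy (by rw [e]; exact hx), Finset.mem_union_left _ hy⟩
  · rintro T ⟨f, hf, hT⟩ hm
    exact last_not (h.bd f hf) (hT hm)
  · rintro T ⟨f, hf, hT⟩ hA
    obtain ⟨i, hi, hib, rfl⟩ := h.h1 f hf ((fs_sub hal).1 (hA.trans hT))
    rw [fs_erase (by omega : i < N + 1) (Or.inr hib)] at hT
    exact hT.trans (Finset.erase_subset _ _)
  · rintro ⟨f, hf, hT⟩
    exact h.h3 f hf ((fs_sub hbl).1 hT)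

/-- the bound for the new list -/
theorem FlipOK.bd' (h : FlipOK N L L' a b) : ∀ f ∈ L', f < 2 ^ N := by
  intro f hf
  rw [h.h4] at hf
  rcases hf with ⟨hf, -⟩ | ⟨i, hi, -, rfl⟩
  · exact h.bd f hf
  · exact Nat.xor_lt_two_pow (Nat.or_lt_two_pow h.al h.bl) (Nat.pow_lt_pow_right (by norm_num) hi)

/-- the mask of the old edge is a face of the new complex -/
theorem FlipOK.mem (h : FlipOK N L L' a b) : fs (N + 1) b ∈ KL (N + 1) L' := by
  rw [h.KL_eq]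
  refine Or.inr ⟨subset_rfl, Finset.subset_union_right, fun hA => ?_⟩
  obtain ⟨x, hx⟩ := fs_ne (lt_succ_pow h.al) h.a0
  exact Finset.disjoint_left.1 (fs_disj (N := N + 1) h.dj) hx (hA hx)

/-- the boundary of a simplex -/
theorem KL_base {M w : ℕ} {L : List ℕ}
    (h : ∀ f, f ∈ L ↔ ∃ i < M, w.testBit i = true ∧ f = w ^^^ 2 ^ i) : KL M L = {T | T ⊂ fs M w} := by
  ext T
  constructor
  · rintro ⟨f, hf, hT⟩
    obtain ⟨i, hi, hiw, rfl⟩ := (h f).1 hf
    rw [fs_xor (⟨i, hi⟩ : Fin M) hiw] at hT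
    exact lt_of_le_of_lt hT (Finset.erase_ssubset (mem_fs.2 hiw))
  · intro hT
    obtain ⟨x, hx, hxT⟩ := Finset.exists_of_ssubset hT
    rw [mem_fs] at hx
    refine ⟨w ^^^ 2 ^ (x : ℕ), (h _).2 ⟨x, x.2, hx, rfl⟩, ?_⟩
    rw [fs_xor x hx]
    intro y hy
    rw [Finset.mem_erase]
    exact ⟨fun e => hxT (by rw [← e]; exact hy), hT.1 hy⟩

end Pool.Agent.V8H11.GC
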