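import Pool.Agent.V8H11.GC.Mask
import Pool.Agent.V8H76.GC.Flip

/-!
# One flip, in terms of bit masks
-/

set_option autoImplicit false

namespace Pool.Agent.V8H11.GC

open Pool.Agent.V8H27.GC

variable {N : ℕ} {L L' : List ℕ} {a b : ℕ}

theorem FlipOK.step {n : ℕ} (h : FlipOK N L L' a b) (hP : PLC n (KL (N + 1) L)) : PLC n (KL (N + 1) L') := by
  obtain ⟨h1, h2, h3, -, h5, h6, h7, h8, h9⟩ := h.hyp
  rw [h.KL_eq]
  exact PLC.flip hP h1 h2 h3 h5 h6 h7 h8 h9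

/-- the start -/
theorem PLC_base {n M w : ℕ} {L : List ℕ} (hw : (fs M w).card = n + 1)
    (h : ∀ f, f ∈ L ↔ ∃ i < M, w.testBit i = true ∧ f = w ^^^ 2 ^ i) : PLC n (KL M L) := by
  rw [KL_base h]
  exact PLC.base _ hw

end Pool.Agent.V8H11.GC
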